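import Mathlib

/-! Moore graphs of degree 57: the basic structure and a trace argument modulo five. -/

open Finset

namespace Pool.Agent.Moore57

/-- The three defining properties of a Moore graph of diameter two. -/
structure IsMoore {V : Type*} (G : SimpleGraph V) : Prop where
  notri : ∀ x y z, G.Adj x y → G.Adj y z → G.Adj x z → False
  exc : ∀ x y, x ≠ y → ¬ G.Adj x y → ∃ z, G.Adj x z ∧ G.Adj y z
  unc : ∀ x y z z', x ≠ y → G.Adj x z → G.Adj y z → G.Adj x z' → G.Adj y z' → z = z'

theorem isMoore {V : Type*} [Fintype V] (G : SimpleGraph V) [DecidableRel G.Adj]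
    (hreg : G.IsRegularOfDegree 57) (hdiam : G.ediam = 2) (hcard : Fintype.card V = 3250) :
    IsMoore G := by
  classical
  have exc : ∀ x y, x ≠ y → ¬ G.Adj x y → ∃ z, G.Adj x z ∧ G.Adj y z := by
    intro x y hxy hadj
    have h1 : G.edist x y ≤ 2 := hdiam ▸ SimpleGraph.edist_le_ediam
    have h2 : ¬ G.edist x y ≤ 1 := by
      rw [SimpleGraph.edist_le_one_iff_adj_or_eq]
      tauto
    have h3 : G.edist x y = 2 := by
      refine le_antisymm h1 ?_
      have : (1 : ℕ∞) < G.edist x y := not_le.mp h2
      exact Order.add_one_le_of_lt this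
    obtain ⟨z, hz⟩ := (SimpleGraph.edist_eq_two_iff.mp h3).2.2
    exact ⟨z, hz.1, hz.2⟩
  have main : ∀ v, (∀ a w, G.Adj v a → G.Adj a w → w ≠ v → ¬ G.Adj v w) ∧
      ∀ a a' w, G.Adj v a → G.Adj a w → w ≠ v → G.Adj v a' → G.Adj a' w → a = a' := by
    intro v
    set P : Finset (Σ _ : V, V) :=
      (G.neighborFinset v).sigma fun a => (G.neighborFinset a).erase v with hP
    have cP : P.card = 3192 := by
      rw [hP, card_sigma]
      have : ∀ a ∈ G.neighborFinset v, ((G.neighborFinset a).erase v).card = 56 := by
        intro a ha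
        rw [card_erase_of_mem (by simpa [SimpleGraph.adj_comm] using ha),
          SimpleGraph.card_neighborFinset_eq_degree, hreg.degree_eq]
      rw [sum_congr rfl this, sum_const, SimpleGraph.card_neighborFinset_eq_degree, hreg.degree_eq]
      rfl
    set T : Finset V := univ \ insert v (G.neighborFinset v) with hT
    have cT : T.card = 3192 := by
      rw [hT, card_sdiff_of_subset (subset_univ _), card_univ, hcard,
        card_insert_of_notMem (by simp), SimpleGraph.card_neighborFinset_eq_degree, hreg.degree_eq]
    have sub : T ⊆ P.image fun p => p.2 := by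
      intro w hw
      simp only [hT, mem_sdiff, mem_univ, mem_insert, SimpleGraph.mem_neighborFinset, true_and,
        not_or] at hw
      obtain ⟨z, h1, h2⟩ := exc v w (Ne.symm hw.1) hw.2
      refine mem_image.mpr ⟨⟨z, w⟩, ?_, rfl⟩
      simp [hP, h1, h2.symm, hw.1]
    have le1 : (P.image fun p => p.2).card ≤ P.card := card_image_le
    have eqT : T = P.image fun p => p.2 := eq_of_subset_of_card_le sub (by omega)
    have inj : Set.InjOn (fun p : (Σ _ : V, V) => p.2) P :=
      card_image_iff.mp (by rw [← eqT]; omega)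
    constructor
    · intro a w h1 h2 h3
      have : w ∈ T := by
        rw [eqT]
        exact mem_image.mpr ⟨⟨a, w⟩, by simp [hP, h1, h2, h3], rfl⟩
      simp only [hT, mem_sdiff, mem_univ, mem_insert, SimpleGraph.mem_neighborFinset, true_and,
        not_or] at this
      exact this.2
    · intro a a' w h1 h2 h3 h4 h5
      have := inj (x₁ := ⟨a, w⟩) (by simp [hP, h1, h2, h3]) (x₂ := ⟨a', w⟩)
        (by simp [hP, h4, h5, h3]) rfl
      exact congrArg Sigma.fst this
  refine ⟨fun x y z h1 h2 h3 => (main x).1 y z h1 h2 h3.ne.symm h3, exc, ?_⟩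
  intro x y z z' hxy h1 h2 h3 h4
  exact (main x).2 z z' y h1 h2.symm hxy.symm h3 h4.symm

instance fact5 : Fact (Nat.Prime 5) := ⟨by norm_num⟩

/-- The trace argument. -/
theorem five_dvd {N B : Type*} [Fintype N] [DecidableEq N] [Fintype B] [DecidableEq B]
    (cN : Fintype.card N = 57) (cB : Fintype.card B = 56) (π : N → N → Equiv.Perm B)
    (hinv : ∀ a b x, π b a (π a b x) = x)
    (hsh : ∀ a c x z, a ≠ c → (univ.filter fun b => b ≠ a ∧ b ≠ c ∧ π b c (π a b x) = z).card +
      (if π a c x = z then 1 else 0) = 1)
    (R : B → B → Prop) [DecidableRel R] (hirr : ∀ x, ¬ R x x)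
    (hR : ∀ a b x y, R (π a b x) (π a b y) ↔ R x y) (n : ℕ)
    (hn : ∀ x, (univ.filter fun y => R x y).card = n) : 5 ∣ n := by
  let A : Matrix (N × B) (N × B) (ZMod 5) := fun p q =>
    if p.1 ≠ q.1 ∧ π p.1 q.1 p.2 = q.2 then 1 else 0
  let s : B → B → ZMod 5 := fun x y => (if R x y then 1 else 0) - if x = y then (n : ZMod 5) else 0
  let S : Matrix (N × B) (N × B) (ZMod 5) := fun p q => if p.1 = q.1 then s p.2 q.2 else 0
  have srow : ∀ x, ∑ y, s x y = 0 := by
    intro x
    simp only [s, sum_sub_distrib, sum_boole, hn, sum_ite_eq, mem_univ, if_true, sub_self]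
  have sinv : ∀ a b x y, s (π a b x) (π a b y) = s x y := by
    intro a b x y
    simp only [s, hR, EmbeddingLike.apply_eq_iff_eq]
  have comm : A * S = S * A := by
    ext ⟨a, x⟩ ⟨c, z⟩
    simp only [Matrix.mul_apply, Fintype.sum_prod_type, A, S]
    rw [sum_eq_single c, sum_eq_single a]
    · by_cases h : a = c
      · simp [h]
      · rw [sum_eq_single (π a c x), sum_eq_single (π c a z)]
        · simp only [h, ne_eq, not_false_eq_true, and_self, if_true, one_mul, hinv, mul_one]
          rw [← sinv a c x, hinv]
        · intro y _ hy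
          have : ¬ π a c y = z := fun e => hy (by rw [← e, hinv])
          simp [this]
        · simp
        · intro y _ hy
          simp [hy.symm]
        · simp
    · intro b _ hb
      simp [hb.symm]
    · simp
    · intro b _ hb
      simp [hb]
    · simp
  have hsq : ∀ a x c z, (A * A + A - 1) (a, x) (c, z) = if a = c then 0 else 1 := by
    intro a x c z
    have e : (A * A) (a, x) (c, z) =
        ((univ.filter fun b => b ≠ a ∧ b ≠ c ∧ π b c (π a b x) = z).card : ZMod 5) := by
      simp only [Matrix.mul_apply, Fintype.sum_prod_type, A]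
      rw [← sum_boole]
      refine sum_congr rfl fun b _ => ?_
      rw [sum_eq_single (π a b x)]
      · by_cases h : a = b
        · simp [h]
        · have h' : b ≠ a := fun e => h e.symm
          simp [h, h']
      · intro y _ hy
        simp [hy.symm]
      · simp
    rw [Matrix.sub_apply, Matrix.add_apply, e, Matrix.one_apply]
    by_cases h : a = c
    · subst h
      by_cases hx : x = z
      · subst hx
        have : (univ.filter fun b => b ≠ a ∧ b ≠ a ∧ π b a (π a b x) = x) = univ.erase a := by
          ext b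
          simp [hinv]
        rw [this, card_erase_of_mem (mem_univ _), card_univ, cN]
        simp only [A, ne_eq, not_true_eq_false, false_and, if_false, if_true]
        decide
      · have : (univ.filter fun b => b ≠ a ∧ b ≠ a ∧ π b a (π a b x) = z) = ∅ := by
          ext b
          simp [hinv, hx]
        rw [this]
        simp [A, hx]
    · have h1 := congrArg (Nat.cast : ℕ → ZMod 5) (hsh a c x z h)
      push_cast at h1
      simp only [A, h, ne_eq, not_false_eq_true, true_and, Prod.mk.injEq, false_and, if_false,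
        sub_zero]
      exact h1
  have kill : S * (A * A + A - 1) = 0 := by
    ext ⟨a, x⟩ ⟨c, z⟩
    simp only [Matrix.mul_apply, Fintype.sum_prod_type, hsq, S, Matrix.zero_apply]
    rw [sum_eq_single a]
    · by_cases h : a = c
      · simp [h]
      · simp [h, srow]
    · intro b _ hb
      simp [hb.symm]
    · simp
  have nil : IsNilpotent (S * A - (2 : ZMod 5) • S) := by
    refine ⟨2, ?_⟩
    have c2 : S * A * S = S * S * A := by rw [mul_assoc, comm, ← mul_assoc]
    have c3 : S * A * (S * A) = S * S * (A * A) := by rw [← mul_assoc, c2, mul_assoc]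
    have d1 : (2 : ZMod 5) • (S * S * A) + (2 : ZMod 5) • (S * S * A) = -(S * S * A) := by
      rw [← add_smul, show (2 + 2 : ZMod 5) = -1 by decide, neg_one_smul]
    have d2 : (2 : ZMod 5) • (2 : ZMod 5) • (S * S) = -(S * S) := by
      rw [smul_smul, show (2 * 2 : ZMod 5) = -1 by decide, neg_one_smul]
    have e1 : (S * A - (2 : ZMod 5) • S) ^ 2 = S * (S * (A * A + A - 1)) := by
      rw [sq, sub_mul, mul_sub, mul_sub, c3, mul_smul_comm, c2, smul_mul_assoc, smul_mul_assoc,
        mul_smul_comm, d2, ← mul_assoc S S A, ← mul_assoc S S, mul_sub, mul_add, mul_one,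
        sub_sub, ← add_sub_assoc, d1]
      abel
    rw [e1, kill, mul_zero]
  have tr := (Matrix.isNilpotent_trace_of_isNilpotent nil).eq_zero
  have t1 : (S * A).trace = 0 := by
    simp only [Matrix.trace, Matrix.diag_apply, Matrix.mul_apply]
    refine sum_eq_zero fun p _ => sum_eq_zero fun q _ => ?_
    by_cases h : p.1 = q.1
    · simp [A, h]
    · simp [S, h]
  have t2 : S.trace = -(n : ZMod 5) * 2 := by
    simp only [Matrix.trace, Matrix.diag_apply, S, s, hirr, if_true, if_false, zero_sub, sum_const,
      card_univ, Fintype.card_prod, cN, cB, nsmul_eq_mul]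
    rw [mul_comm]
    congr 1
  rw [Matrix.trace_sub, Matrix.trace_smul, t1, t2, smul_eq_mul] at tr
  rw [← ZMod.natCast_eq_zero_iff]
  have h4 : (4 : ZMod 5) * 4 = 1 := by decide
  linear_combination (4 : ZMod 5) * tr - (n : ZMod 5) * h4

end Pool.Agent.Moore57
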